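import Pool.Agent.Helper19.Fan.Exact

set_option autoImplicit false

/-!
# The maximum number of edges of fan-planar multigraphs without homotopic parallel edges

This answers Q1 of MP_7b591c_co: `M(3) = 3`, `M(4) = 8` and `M(n) = 5n - 10` for all `n ≥ 5`.

Upper bounds: `card_le` in `Helper19/Fan/Count.lean` for `n ≥ 5`; for `n = 4` no edge is crossed twice, which gives
`4n - 8`, and for `n = 3` there are no crossings and no parallel edges.  Lower bounds: the triangle,
the quadrangle and the pentagon with all diagonals on both sides, and for `n ≥ 6` two poles, a rim
with `n - 2` vertices, all spokes, and on both sides of the rim an edge over every rim vertex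
joining its two neighbours.
-/

namespace Pool.Agent.Results.MP_7b591c_co.ExactMaximum

open Pool.Agent.Helper19.Fan

theorem result (n : ℕ) (hn : 3 ≤ n) :
    IsGreatest {m : ℕ | ∃ (V E : Type) (_ : Fintype V) (_ : Fintype E) (G : E → Sym2 V),
      Fintype.card V = n ∧ Fintype.card E = m ∧ FanPlanarNonHomotopic G}
      (if n = 3 then 3 else if n = 4 then 8 else 5 * n - 10) :=
  isGreatest_edgeCounts n hn

end Pool.Agent.Results.MP_7b591c_co.ExactMaximum
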